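import Pool.Agent.W492.BB.Equiv

/-!
# Bloch-Beilinson filtrations with Abel-Jacobi maps, on a set of varieties
-/

open CategoryTheory AlgebraicGeometry

universe u v w

namespace Pool.Agent.W550.BB

open Pool.Agent.H914 Pool.Agent.H914.VarClass Pool.Agent.H914.VarClass.Obj Pool.Agent.W492.BB

variable {k : Type u} [Field k] {𝒱 : VarClass k} {C : TheoryData.{u, v, 0} 𝒱 ℚ} {K : Type w}
  [Field K] (H : WeilTheoryData.{u, v, w} C K)

/-- The class `x` lies in `CH^j(X)_hom`: it is a class of codimension `j` which is homologically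
trivial. -/
def IsHom (X : 𝒱.Obj) (j : ℕ) (x : C.A X) : Prop := C.Deg j x ∧ H.cl x = 0

/-- A system of Abel-Jacobi maps: `ℚ`-vector spaces `J^j(X)` and maps
`CH^j(X)_hom → J^j(X)`. (The values of `aj` on classes which do not lie in `CH^j(X)_hom` are
irrelevant.) -/
structure AJData (C : TheoryData.{u, v, 0} 𝒱 ℚ) where
  /-- the group `J^j(X)` -/
  J : 𝒱.Obj → ℕ → Type v
  [group : ∀ X j, AddCommGroup (J X j)]
  [module : ∀ X j, Module ℚ (J X j)]
  /-- the Abel-Jacobi map -/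
  aj : ∀ (X : 𝒱.Obj) (j : ℕ), C.A X → J X j

attribute [instance] AJData.group AJData.module

/-- The formal properties of the Abel-Jacobi maps `CH^j(X)_hom → J^j(X)` (with rational
coefficients; for example Griffiths' Abel-Jacobi maps for complex varieties, where `J^j(X)` is the
`j`-th intermediate Jacobian of `X`, tensored with `ℚ`): they are linear, and every
correspondence `Γ` induces a map of the groups `J` compatible with the action of `Γ` on
homologically trivial cycles, which is zero as soon as `Γ` acts as zero on `H^(2j-1)(X)`. -/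
structure IsAbelJacobi (J : AJData C) : Prop where
  add : ∀ {X : 𝒱.Obj} {j : ℕ} {x y : C.A X}, IsHom H X j x → IsHom H X j y →
    J.aj X j (x + y) = J.aj X j x + J.aj X j y
  smul : ∀ {X : 𝒱.Obj} {j : ℕ} (q : ℚ) {x : C.A X}, IsHom H X j x →
    J.aj X j (q • x) = q • J.aj X j x
  corr : ∀ {X Y : 𝒱.Obj} {j i : ℕ} {Γ : C.A (X.prod Y)}, C.Deg (X.dim + i - j) Γ →
    ∃ g : J.J X j →+ J.J Y i, (∀ x, IsHom H X j x → J.aj Y i (C.act Γ x) = g (J.aj X j x)) ∧
      (Kills H Γ (2 * j - 1) → g = 0)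

/-- The class `x` lies in the kernel of the Abel-Jacobi map of `CH^j(X)_hom`. -/
def IsAJTrivial (J : AJData C) (X : 𝒱.Obj) (j : ℕ) (x : C.A X) : Prop :=
  IsHom H X j x ∧ J.aj X j x = 0

/-- `F` is a Bloch-Beilinson filtration on the set `S` of varieties, that is, it satisfies the
properties 1, 2, 3, 4 for the varieties in `S`: for `X` in `S`,
1. `F^0 CH^j(X) = CH^j(X)`, `F^1 CH^j(X) = CH^j(X)_hom`, `F^2 CH^j(X)` is the kernel of the
   Abel-Jacobi map of `CH^j(X)_hom`;
2. `F^(j+1) CH^j(X) = 0`;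
and for `X`, `Y` in `S` and every correspondence `Γ` of any degree from `X` to `Y`, mapping
`CH^j(X)` to `CH^i(Y)`,
3. `Γ_*` maps `F^n CH^j(X)` to `F^n CH^i(Y)`;
4. `Γ_*` maps `F^n CH^j(X)` to `F^(n+1) CH^i(Y)` if `Γ` acts as zero on `H^(2j-n)(X)`. -/
structure IsBBOn (J : AJData C) (S : Set 𝒱.Obj) (F : Filtration C) : Prop where
  zero : ∀ X ∈ S, ∀ (j : ℕ) (x : C.A X), F.Mem j 0 x ↔ C.Deg j x
  one : ∀ X ∈ S, ∀ (j : ℕ) (x : C.A X), F.Mem j 1 x ↔ IsHom H X j x
  two : ∀ X ∈ S, ∀ (j : ℕ) (x : C.A X), F.Mem j 2 x ↔ IsAJTrivial H J X j x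
  top : ∀ X ∈ S, ∀ (j : ℕ) (x : C.A X), F.Mem j (j + 1) x → x = 0
  stable : ∀ X ∈ S, ∀ Y ∈ S, ∀ (j i n : ℕ) (Γ : C.A (X.prod Y)), C.Deg (X.dim + i - j) Γ →
    ∀ x : C.A X, F.Mem j n x → F.Mem i n (C.act Γ x)
  shift : ∀ X ∈ S, ∀ Y ∈ S, ∀ (j i n : ℕ) (Γ : C.A (X.prod Y)), C.Deg (X.dim + i - j) Γ →
    Kills H Γ (2 * j - n) → ∀ x : C.A X, F.Mem j n x → F.Mem i (n + 1) (C.act Γ x)

/-- A weak Bloch-Beilinson filtration on the single variety `X`: a family of subsets `F j n` of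
the ring of cycle classes of `X` such that
`CH^j(X) ⊆ F j 0`, `CH^j(X)_hom ⊆ F j 1`, the kernel of the Abel-Jacobi map is contained in
`F j 2`, `F j (j + 1)` contains no nonzero class, and every self-correspondence of `X` (of any
degree) mapping `CH^j(X)` to `CH^i(X)` and acting as zero on `H^(2j-n)(X)` maps `F j n` to
`F i (n + 1)`. -/
structure IsWeakBB (J : AJData C) (X : 𝒱.Obj) (F : ℕ → ℕ → Set (C.A X)) : Prop where
  zero : ∀ (j : ℕ) (x : C.A X), C.Deg j x → x ∈ F j 0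
  one : ∀ (j : ℕ) (x : C.A X), IsHom H X j x → x ∈ F j 1
  two : ∀ (j : ℕ) (x : C.A X), IsAJTrivial H J X j x → x ∈ F j 2
  top : ∀ (j : ℕ) (x : C.A X), x ∈ F j (j + 1) → x = 0
  shift : ∀ (j i n : ℕ) (Γ : C.A (X.prod X)), C.Deg (X.dim + i - j) Γ →
    Kills H Γ (2 * j - n) → ∀ x ∈ F j n, C.act Γ x ∈ F i (n + 1)

/-- The set `D` of varieties dominates all varieties of the class: for every `X` there are a
morphism `p : W ⟶ X` with `W` in `D` and a class `e` on `W` with `p_* e = 1` (for example a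
morphism which is generically finite of degree `n`, and `e = 1/n`). -/
def Dominating (C : TheoryData.{u, v, 0} 𝒱 ℚ) (D : Set 𝒱.Obj) : Prop :=
  ∀ X : 𝒱.Obj, ∃ W ∈ D, ∃ (p : W ⟶ X) (e : C.A W), C.Deg (W.dim - X.dim) e ∧ C.down p e = 1

/-- `AJChain n X i x`: the class `x ∈ CH^i(X)` is obtained by a chain of correspondences. The
chain begins at level `0` with any class, or at level `1` with a homologically trivial class, or
at level `2` with a class in the kernel of the Abel-Jacobi map; the correspondence which is applied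
to a class in `CH^j(Z)` of level `r` acts as zero on `H^(2j-r)(Z)`, and it raises the level by
one; `n` is the level of `x`. -/
inductive AJChain (J : AJData C) : ℕ → (X : 𝒱.Obj) → ℕ → C.A X → Prop
  | zero (X : 𝒱.Obj) (i : ℕ) (x : C.A X) (hx : C.Deg i x) : AJChain J 0 X i x
  | one (X : 𝒱.Obj) (i : ℕ) (x : C.A X) (hx : IsHom H X i x) : AJChain J 1 X i x
  | two (X : 𝒱.Obj) (i : ℕ) (x : C.A X) (hx : IsAJTrivial H J X i x) : AJChain J 2 X i x
  | cons (r : ℕ) (Z X : 𝒱.Obj) (j i : ℕ) (z : C.A Z) (Γ : C.A (Z.prod X))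
      (hz : AJChain J r Z j z) (hΓ : C.Deg (Z.dim + i - j) Γ) (hkill : Kills H Γ (2 * j - r)) :
      AJChain J (r + 1) X i (C.act Γ z)

end Pool.Agent.W550.BB
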