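import Pool.Agent.W550.BB.Defs

/-!
# Bloch-Beilinson filtrations exist if they exist on every single variety
-/

open CategoryTheory AlgebraicGeometry

universe u v w

namespace Pool.Agent.W550.BB

open Pool.Agent.H914 Pool.Agent.H914.VarClass Pool.Agent.H914.VarClass.Obj Pool.Agent.W492.BB

variable {k : Type u} [Field k] {𝒱 : VarClass k} {C : TheoryData.{u, v, 0} 𝒱 ℚ} {K : Type w}
  [Field K] {H : WeilTheoryData.{u, v, w} C K} [hC : IsChow C] [hH : IsWeil H]
  {X Y Z W : 𝒱.Obj} {J : AJData C}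

omit hC hH in
lemma cl_smul (q : ℚ) (x : C.A X) : H.cl (q • x) = H.cl (algebraMap ℚ _ q) * H.cl x := by
  rw [← map_mul, Algebra.algebraMap_eq_smul_one, smul_mul_assoc, one_mul]

variable (H) in
/-- The homologically trivial classes. -/
def homS (X : 𝒱.Obj) (j : ℕ) : Submodule ℚ (C.A X) where
  carrier := {x | IsHom H X j x}
  add_mem' := fun {a b} ha hb => ⟨Submodule.add_mem _ ha.1 hb.1, by rw [map_add, ha.2, hb.2,
    add_zero]⟩
  zero_mem' := ⟨Submodule.zero_mem _, map_zero _⟩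
  smul_mem' := fun q x hx => ⟨Submodule.smul_mem _ q hx.1, by rw [cl_smul, hx.2, mul_zero]⟩

variable (H J) in
/-- The kernel of the Abel-Jacobi map. -/
def ajS (hJ : IsAbelJacobi H J) (X : 𝒱.Obj) (j : ℕ) : Submodule ℚ (C.A X) where
  carrier := {x | IsAJTrivial H J X j x}
  add_mem' := fun {a b} ha hb => ⟨(homS H X j).add_mem ha.1 hb.1, by
    rw [hJ.add ha.1 hb.1, ha.2, hb.2, add_zero]⟩
  zero_mem' := ⟨(homS H X j).zero_mem, by
    have := hJ.smul (X := X) (j := j) 0 (x := 0) (homS H X j).zero_mem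
    rwa [zero_smul, zero_smul] at this⟩
  smul_mem' := fun q x hx => ⟨(homS H X j).smul_mem q hx.1, by
    rw [hJ.smul q hx.1, hx.2, smul_zero]⟩

lemma deg_eq {i j : ℕ} (X : 𝒱.Obj) : (X.dim : ℤ) + i - j = X.dim + (i - j) := by ring

lemma isHom_act {i j : ℕ} {Γ : C.A (X.prod Y)} (hΓ : Γ ∈ C.gr (X.prod Y) (X.dim + i - j))
    {x : C.A X} (hx : IsHom H X j x) : IsHom H Y i (C.act Γ x) := by
  refine ⟨?_, ?_⟩
  · rw [deg_eq] at hΓ
    have := act_mem hΓ hx.1
    rwa [show (j : ℤ) + (i - j) = i by ring] at this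
  · rw [cl_act, hx.2, H.act_map_zero]

lemma isAJ_act (hJ : IsAbelJacobi H J) {i j : ℕ} {Γ : C.A (X.prod Y)}
    (hΓ : Γ ∈ C.gr (X.prod Y) (X.dim + i - j)) {x : C.A X} (hx : IsAJTrivial H J X j x) :
    IsAJTrivial H J Y i (C.act Γ x) := by
  obtain ⟨g, hg, -⟩ := hJ.corr hΓ
  exact ⟨isHom_act hΓ hx.1, by rw [hg x hx.1, hx.2, map_zero]⟩

lemma isHom_act_of_kills {i j : ℕ} {Γ : C.A (X.prod Y)}
    (hΓ : Γ ∈ C.gr (X.prod Y) (X.dim + i - j)) (hk : Kills H Γ (2 * j - (0 : ℕ)))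
    {x : C.A X} (hx : C.Deg j x) : IsHom H Y i (C.act Γ x) := by
  refine ⟨?_, ?_⟩
  · rw [deg_eq] at hΓ
    have := act_mem hΓ hx
    rwa [show (j : ℤ) + (i - j) = i by ring] at this
  · rw [cl_act]
    apply hk
    have := H.cl_mem hx
    rwa [show 2 * (j : ℤ) = 2 * j - (0 : ℕ) by simp] at this

lemma isAJ_act_of_kills (hJ : IsAbelJacobi H J) {i j : ℕ} {Γ : C.A (X.prod Y)}
    (hΓ : Γ ∈ C.gr (X.prod Y) (X.dim + i - j)) (hk : Kills H Γ (2 * j - (1 : ℕ)))
    {x : C.A X} (hx : IsHom H X j x) : IsAJTrivial H J Y i (C.act Γ x) := by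
  obtain ⟨g, hg, hg0⟩ := hJ.corr hΓ
  refine ⟨isHom_act hΓ hx, ?_⟩
  rw [hg x hx, hg0 (by simpa using hk)]
  rfl

/-! ### Properties of chains -/

omit hH in
lemma AJChain.mem_gr {n : ℕ} {i : ℕ} {x : C.A X} (h : AJChain H J n X i x) : x ∈ C.gr X i := by
  induction h with
  | zero _ _ _ hx => exact hx
  | one _ _ _ hx => exact hx.1
  | two _ _ _ hx => exact hx.1.1
  | cons r Z X j i z Γ hz hΓ had ih =>
    rw [deg_eq] at hΓ
    have := act_mem hΓ ih
    rwa [show (j : ℤ) + (i - j) = i by ring] at this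

lemma AJChain.stab (hJ : IsAbelJacobi H J) {n : ℕ} {i j : ℕ} {z : C.A Z}
    (h : AJChain H J n Z j z) {Γ : C.A (Z.prod X)}
    (hΓ : Γ ∈ C.gr (Z.prod X) (Z.dim + i - j)) : AJChain H J n X i (C.act Γ z) := by
  cases h with
  | zero _ _ _ hx =>
    refine AJChain.zero _ _ _ ?_
    rw [deg_eq] at hΓ
    have := act_mem hΓ hx
    rwa [show (j : ℤ) + (i - j) = i by ring] at this
  | one _ _ _ hx => exact AJChain.one _ _ _ (isHom_act hΓ hx)
  | two _ _ _ hx => exact AJChain.two _ _ _ (isAJ_act hJ hΓ hx)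
  | cons r Y _ l _ y Δ hy hΔ hk =>
    rw [deg_eq] at hΓ hΔ
    obtain ⟨E, hE, hE1, hE2⟩ := (Realised.of (H := H) hΔ).comp (Realised.of hΓ)
    beta_reduce at hE1 hE2
    rw [← hE1]
    refine AJChain.cons r Y X l i y E hy ?_ ?_
    · change E ∈ _
      rwa [show (Y.dim : ℤ) + i - l = Y.dim + ((j - l : ℤ) + (i - j)) by ring]
    · intro a ha
      rw [hE2, hk a ha, H.act_map_zero]

variable (H J) in
/-- The chain filtration. -/
def FA (X : 𝒱.Obj) (i n : ℕ) : Submodule ℚ (C.A X) := Submodule.span ℚ {x | AJChain H J n X i x}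

omit hC hH in
lemma FA_induction {i n : ℕ} {S : Submodule ℚ (C.A X)}
    (h : ∀ x, AJChain H J n X i x → x ∈ S) : FA H J X i n ≤ S := Submodule.span_le.2 h

omit hH in
lemma FA_le_gr (X : 𝒱.Obj) (i n : ℕ) : FA H J X i n ≤ C.gr X i :=
  FA_induction fun _ hx => hx.mem_gr

lemma FA_zero (X : 𝒱.Obj) (i : ℕ) : FA H J X i 0 = C.gr X i :=
  le_antisymm (FA_le_gr X i 0) fun x hx => Submodule.subset_span (AJChain.zero X i x hx)

lemma FA_one (X : 𝒱.Obj) (i : ℕ) : FA H J X i 1 = homS H X i := by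
  refine le_antisymm (FA_induction fun x hx => ?_) fun x hx =>
    Submodule.subset_span (AJChain.one X i x hx)
  cases hx with
  | one _ _ _ hx => exact hx
  | cons r Z _ j _ z Γ hz hΓ hk => exact isHom_act_of_kills hΓ hk hz.mem_gr

lemma FA_two (hJ : IsAbelJacobi H J) (X : 𝒱.Obj) (i : ℕ) : FA H J X i 2 = ajS H J hJ X i := by
  refine le_antisymm (FA_induction fun x hx => ?_) fun x hx =>
    Submodule.subset_span (AJChain.two X i x hx)
  cases hx with
  | two _ _ _ hx => exact hx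
  | cons r Z _ j _ z Γ hz hΓ hk =>
    have h1 : z ∈ FA H J Z j 1 := Submodule.subset_span hz
    rw [FA_one] at h1
    exact isAJ_act_of_kills hJ hΓ hk h1

lemma FA_act (hJ : IsAbelJacobi H J) {n : ℕ} {i j : ℕ} {Γ : C.A (Z.prod X)}
    (hΓ : Γ ∈ C.gr (Z.prod X) (Z.dim + i - j)) {z : C.A Z} (hz : z ∈ FA H J Z j n) :
    C.act Γ z ∈ FA H J X i n := by
  have : FA H J Z j n ≤ (FA H J X i n).comap (C.actL Γ) := FA_induction fun x hx =>
    Submodule.subset_span (hx.stab hJ hΓ)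
  exact this hz

omit hC hH in
lemma FA_shift {n : ℕ} {i j : ℕ} {Γ : C.A (Z.prod X)}
    (hΓ : Γ ∈ C.gr (Z.prod X) (Z.dim + i - j)) (hk : Kills H Γ (2 * j - n))
    {z : C.A Z} (hz : z ∈ FA H J Z j n) : C.act Γ z ∈ FA H J X i (n + 1) := by
  have : FA H J Z j n ≤ (FA H J X i (n + 1)).comap (C.actL Γ) := FA_induction fun x hx =>
    Submodule.subset_span (AJChain.cons n Z X j i x Γ hx hΓ hk)
  exact this hz

lemma FA_anti (hJ : IsAbelJacobi H J) (X : 𝒱.Obj) (i n : ℕ) :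
    FA H J X i (n + 1) ≤ FA H J X i n := by
  refine FA_induction fun x hx => ?_
  cases hx with
  | one _ _ _ hx => rw [FA_zero]; exact hx.1
  | two _ _ _ hx => rw [FA_one]; exact hx.1
  | cons r Z _ j _ z Γ hz hΓ had => exact FA_act hJ hΓ (Submodule.subset_span hz)

variable (H J) in
/-- The chain filtration as a filtration. -/
noncomputable def chainF (hJ : IsAbelJacobi H J) : Filtration C where
  F := FA H J
  le_gr := FA_le_gr
  anti := FA_anti hJ

lemma isBB_chainF (hJ : IsAbelJacobi H J)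
    (h : ∀ (X : 𝒱.Obj) (i : ℕ) (x : C.A X), AJChain H J (i + 1) X i x → x = 0) (S : Set 𝒱.Obj) :
    IsBBOn H J S (chainF H J hJ) where
  zero X _ j x := by
    change x ∈ FA H J X j 0 ↔ _
    rw [FA_zero]
  one X _ j x := by
    change x ∈ FA H J X j 1 ↔ _
    rw [FA_one]
    exact Iff.rfl
  two X _ j x := by
    change x ∈ FA H J X j 2 ↔ _
    rw [FA_two hJ]
    exact Iff.rfl
  top X _ j x hx := by
    have h1 : FA H J X j (j + 1) ≤ ⊥ :=
      FA_induction fun x hx => (Submodule.mem_bot _).2 (h X j x hx)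
    exact (Submodule.mem_bot _).1 (h1 hx)
  stable X _ Y _ j i n Γ hΓ x hx := FA_act hJ hΓ hx
  shift X _ Y _ j i n Γ hΓ hk x hx := FA_shift hΓ hk hx

/-! ### Splittings -/

variable (C) in
/-- The morphism `p` splits: `p_* e = 1` for some `e`. -/
def Split (p : W ⟶ X) : Prop := ∃ e ∈ C.gr W (W.dim - X.dim), C.push p e = 1

omit hH in
lemma Split.comp {p : W ⟶ X} {q : X ⟶ Y} (hp : Split C p) (hq : Split C q) :
    Split C (p ≫ q) := by
  obtain ⟨e, he, he1⟩ := hp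
  obtain ⟨f, hf, hf1⟩ := hq
  refine ⟨e * C.pull p f, ?_, ?_⟩
  · have := C.mul_mem he (C.pull_mem p hf)
    rwa [show (W.dim : ℤ) - X.dim + (X.dim - Y.dim) = W.dim - Y.dim by ring] at this
  · rw [C.push_comp, C.proj_right, he1, one_mul, hf1]

omit hH in
lemma split_fst (X Y : 𝒱.Obj) : Split C (fst X Y) := by
  obtain ⟨a, ha, h1, -⟩ := exists_deg_one C Y
  refine ⟨C.pull (snd X Y) a, ?_, h1 X⟩
  have := C.pull_mem (snd X Y) ha
  rwa [show (Y.dim : ℤ) = (X.prod Y).dim - X.dim by rw [dim_prod]; push_cast; ring] at this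

omit hH in
lemma split_snd (X Y : 𝒱.Obj) : Split C (snd X Y) := by
  obtain ⟨a, ha, -, h1⟩ := exists_deg_one C X
  refine ⟨C.pull (fst X Y) a, ?_, h1 Y⟩
  have := C.pull_mem (fst X Y) ha
  rwa [show (X.dim : ℤ) = (X.prod Y).dim - Y.dim by rw [dim_prod]; push_cast; ring] at this

omit hH in
lemma split_id (X : 𝒱.Obj) : Split C (𝟙 X) :=
  ⟨1, by rw [sub_self]; exact C.one_mem X, C.push_id 1⟩

omit hH in
lemma Split.injective {p : W ⟶ X} (hp : Split C p) {x : C.A X} (h : C.pull p x = 0) : x = 0 := by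
  obtain ⟨e, -, he1⟩ := hp
  have := C.proj_right p e x
  rw [h, mul_zero, map_zero, he1, one_mul] at this
  exact this.symm

/-- A filtration on a single dominating variety sees the chain. -/
lemma AJChain.pull_mem (hJ : IsAbelJacobi H J) {n : ℕ} {X : 𝒱.Obj} {i : ℕ} {x : C.A X}
    (h : AJChain H J n X i x) : ∃ (V : 𝒱.Obj) (q : V ⟶ X), Split C q ∧
      ∀ (W : 𝒱.Obj) (p : W ⟶ V), Split C p → ∀ F : ℕ → ℕ → Set (C.A W), IsWeakBB H J W F →
        C.pull (p ≫ q) x ∈ F i n := by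
  induction h with
  | zero X i x hx =>
    refine ⟨X, 𝟙 X, split_id X, fun W p _ F hF => ?_⟩
    exact hF.zero i _ (C.pull_mem _ hx)
  | one X i x hx =>
    refine ⟨X, 𝟙 X, split_id X, fun W p _ F hF => ?_⟩
    refine hF.one i _ ⟨C.pull_mem _ hx.1, ?_⟩
    rw [H.cl_pull, hx.2, map_zero]
  | two X i x hx =>
    refine ⟨X, 𝟙 X, split_id X, fun W p _ F hF => ?_⟩
    refine hF.two i _ ?_
    obtain ⟨Γ, hΓ, h1, -⟩ := Realised.pull (H := H) (p ≫ 𝟙 X)
    rw [← h1]
    refine isAJ_act hJ ?_ hx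
    rwa [show (X.dim : ℤ) + i - i = X.dim + 0 by ring]
  | cons r Z X j i z Γ hz hΓ hk ih =>
    obtain ⟨V, q, hq, hV⟩ := ih
    refine ⟨V.prod X, snd V X, split_snd V X, fun W p hp F hF => ?_⟩
    -- the morphism to `Z`
    have hs : Split C ((p ≫ fst V X) ≫ q) := (hp.comp (split_fst V X)).comp hq
    have hzF := hV W (p ≫ fst V X) (hp.comp (split_fst V X)) F hF
    set s : W ⟶ Z := (p ≫ fst V X) ≫ q with hs_def
    set t : W ⟶ X := p ≫ snd V X with ht_def
    obtain ⟨e, he, he1⟩ := hs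
    rw [deg_eq] at hΓ
    obtain ⟨T, hT, hT1, hT2⟩ : Realised H W W (i - j)
        (fun y => C.pull t (C.act Γ (C.push s (e * y))))
        (fun a => H.pull t (H.act (H.cl Γ) (H.push s (H.cl e * a)))) :=
      ((((Realised.mul he).comp (Realised.push s)).comp (Realised.of hΓ)).comp
        (Realised.pull t)).congr (by ring) (fun _ => rfl) (fun _ => rfl)
    have h2 : C.act T (C.pull s z) = C.pull t (C.act Γ z) := by
      rw [hT1]
      beta_reduce
      rw [C.proj_right, he1, one_mul]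
    rw [← h2]
    refine hF.shift j i r T ?_ ?_ _ hzF
    · change T ∈ _
      rwa [deg_eq]
    · intro a ha
      rw [hT2]
      beta_reduce
      rw [hk, map_zero]
      have h3 := H.push_mem s (H.mul_mem (H.cl_mem he) ha)
      rwa [show 2 * ((W.dim : ℤ) - Z.dim) + (2 * j - r) + 2 * ((Z.dim : ℤ) - W.dim) =
        2 * j - r by ring] at h3

/-- The main theorem. -/
theorem tfae (hJ : IsAbelJacobi H J) {D : Set 𝒱.Obj} (hD : Dominating C D) :
    [∃ F : Filtration C, IsBBOn H J Set.univ F,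
     ∀ X : 𝒱.Obj, ∃ F : Filtration C, IsBBOn H J {X} F,
     ∀ X ∈ D, ∃ F : ℕ → ℕ → Set (C.A X), IsWeakBB H J X F,
     ∀ (X : 𝒱.Obj) (i : ℕ) (x : C.A X), AJChain H J (i + 1) X i x → x = 0].TFAE := by
  tfae_have 1 → 2 := by
    rintro ⟨F, hF⟩ X
    exact ⟨F, fun Y _ => hF.zero Y trivial, fun Y _ => hF.one Y trivial,
      fun Y _ => hF.two Y trivial, fun Y _ => hF.top Y trivial,
      fun Y _ Z _ => hF.stable Y trivial Z trivial, fun Y _ Z _ => hF.shift Y trivial Z trivial⟩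
  tfae_have 2 → 3 := by
    intro h X _
    obtain ⟨F, hF⟩ := h X
    exact ⟨fun j n => {x | F.Mem j n x}, fun j x hx => (hF.zero X rfl j x).2 hx,
      fun j x hx => (hF.one X rfl j x).2 hx, fun j x hx => (hF.two X rfl j x).2 hx,
      fun j x hx => hF.top X rfl j x hx,
      fun j i n Γ hΓ hk x hx => hF.shift X rfl X rfl j i n Γ hΓ hk x hx⟩
  tfae_have 3 → 4 := by
    intro h X i x hx
    obtain ⟨V, q, hq, hV⟩ := hx.pull_mem hJ
    obtain ⟨W, hW, p, e, he, he1⟩ := hD V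
    obtain ⟨F, hF⟩ := h W hW
    have h1 := hF.top i _ (hV W p ⟨e, he, he1⟩ F hF)
    exact (Split.comp ⟨e, he, he1⟩ hq).injective h1
  tfae_have 4 → 1 := fun h => ⟨chainF H J hJ, isBB_chainF hJ h _⟩
  tfae_finish

end Pool.Agent.W550.BB
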